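import Pool.Agent.H687R2.Pgst.Final

/-!
# Pretty good state transfer is decidable in polynomial time

There is a Turing machine which, given (a code of) the adjacency matrix of a finite simple graph
`G` and two distinct vertices `u`, `v`, decides in polynomially many steps whether pretty good
state transfer occurs between `u` and `v`.

The algorithm: by the Kronecker-type criterion, pretty good state transfer occurs if and only if
the vector which is `0` on the eigenvalue support of `e_u + e_v` and `1` on the eigenvalue support
of `e_u - e_v` lifts modulo 2 to an integer vector orthogonal to the lattice `L` of integer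
relations `∑ l_i = 0`, `∑ l_i θ_i = 0`.  The minimal polynomials of `e_u ± e_v` are found by
lattice reduction of Krylov vectors, their roots are approximated by bisection with Descartes'
rule, the rational space spanned by `L` is found by lattice reduction as the span of the rows of
short integer matrices `M` such that `M_{ij}` is an integer polynomial in `θ_i, θ_j`, `M θ = 0` and
`M 1 = 0` (such matrices exist by Galois theory and are recognised by Liouville's inequality in
degree at most `(2n)^2`), and the parity condition is tested by one more lattice reduction.
-/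

namespace Pool.Agent.Results.MP_a03e85_lc.PolynomialTime

open Pool.Agent.NPC

/-- The adjacency matrix of a graph on `{0, ..., n - 1}` as a list of rows of bits. -/
def code {n : ℕ} (G : SimpleGraph (Fin n)) [DecidableRel G.Adj] : List (List Bool) :=
  List.ofFn fun i => List.ofFn fun j => decide (G.Adj i j)

/-- Pretty good state transfer occurs between `u` and `v`: for every `ε > 0` there is a real `t`
with `|U(t)_{uv}| > 1 - ε`, where `U(t) = exp(i t A)` and `A` is the adjacency matrix. -/
def PGST {n : ℕ} (G : SimpleGraph (Fin n)) [DecidableRel G.Adj] (u v : Fin n) : Prop :=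
  ∀ ε : ℝ, 0 < ε → ∃ t : ℝ,
    1 - ε < ‖(NormedSpace.exp ((Complex.I * (t : ℂ)) • G.adjMatrix ℂ) :
      Matrix (Fin n) (Fin n) ℂ) u v‖

/-- A polynomial-time Turing machine decides pretty good state transfer: on a bit string `x` it
outputs `[true]` if and only if `x` is the code of `(G, u, v)` for a graph `G` on `{0, ..., n - 1}`
and distinct vertices `u`, `v` between which pretty good state transfer occurs. -/
theorem result : ∃ V : List Bool → List Bool, PolyTime V ∧ ∀ x : List Bool,
    V x = [true] ↔ ∃ (n : ℕ) (G : SimpleGraph (Fin n)) (_ : DecidableRel G.Adj) (u v : Fin n),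
      u ≠ v ∧ x = bits ((code G, (u : ℕ), (v : ℕ)) : List (List Bool) × ℕ × ℕ) ∧ PGST G u v := by
  obtain ⟨V, hV, h⟩ := H687R2.Pgst.inPP_problem
  refine ⟨V, hV, fun x => ?_⟩
  rw [← h x]
  constructor
  · rintro ⟨a, rfl, n, G, hdec, u, v, huv, rfl, hp⟩
    exact ⟨n, G, hdec, u, v, huv, rfl, hp⟩
  · rintro ⟨n, G, hdec, u, v, huv, rfl, hp⟩
    exact ⟨_, rfl, n, G, hdec, u, v, huv, rfl, hp⟩

end Pool.Agent.Results.MP_a03e85_lc.PolynomialTime
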